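import Pool.Agent.NPC.Classes
import Pool.Agent.H695R2.IsoImp.Defs

/-!
# Time-bounded Kolmogorov complexity, universal machines, separability

The machines are Mathlib's Turing machines `Turing.FinTM2`, with input and output in `{0,1}*`.
`InP`, `InNP` (from `Pool.Agent.NPC`) are the classes `P` and `NP` of languages `L ⊆ {0,1}*`, given
by Mathlib's notion of polynomial-time computable function `Turing.TM2ComputableInPolyTime`.
Boolean formulas `BF` with connectives `¬`, `∧`, `∨` over the variables `x₀, x₁, …` and their
encoding as bit strings (Polish notation, indices of variables in binary) are from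
`Pool.Agent.H695R2.IsoImp.Defs`.
-/

namespace Pool.Agent.J6H27.KS

open Pool.Agent.NPC Pool.Agent.H695R2.IsoImp Turing

/-- A Turing machine whose inputs and outputs are bit strings. -/
structure Mach where
  /-- the machine -/
  tm : FinTM2
  /-- its input alphabet is `{0,1}` -/
  inE : tm.Γ tm.k₀ ≃ Bool
  /-- its output alphabet is `{0,1}` -/
  outE : tm.Γ tm.k₁ ≃ Bool

/-- The machine `M` on input `y` outputs `x` and halts within `t` steps. -/
def Mach.Outputs (M : Mach) (y x : List Bool) (t : ℕ) : Prop :=
  Nonempty (TM2OutputsInTime M.tm (y.map M.inE.symm) (some (x.map M.outE.symm)) t)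

/-- `U` is a universal Turing machine: for every Turing machine `M` there is a way `code` to
present the inputs `y` of `M` to `U` (usually `code y` is the pair of a program for `M` and `y`)
such that `U` on `code y` outputs what `M` outputs on `y`, with at most polynomial slowdown, and
such that `code y` has length at most `c |y| + d`. Here `c` does not depend on `M`. -/
def Universal (U : Mach) : Prop :=
  ∃ c : ℕ, ∀ M : Mach, ∃ (code : List Bool → List Bool) (d : ℕ) (q : Polynomial ℕ),
    (∀ y, (code y).length ≤ c * y.length + d) ∧
    ∀ y x t, M.Outputs y x t → U.Outputs (code y) x (q.eval (y.length + t))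

/-- The class `K[g(n), G(n)]` for the universal machine `U`: the strings `x` that `U` outputs, on
some input `y` of length at most `g(|x|)`, within fewer than `G(|x|)` steps. -/
def K (U : Mach) (g G : ℕ → ℕ) : Set (List Bool) :=
  {x | ∃ y : List Bool, y.length ≤ g x.length ∧ ∃ t < G x.length, U.Outputs y x t}

/-- `SAT`: the set of the encodings of the satisfiable Boolean formulas. -/
def SAT : Set (List Bool) := lang (fun φ : BF => ∃ σ : ℕ → Bool, φ.eval σ = true)

/-- `A` and `B` are polynomially separable: some `S ∈ P` contains `A` and is disjoint from `B`. -/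
def PolySeparable (A B : Set (List Bool)) : Prop :=
  ∃ S : Set (List Bool), InP S ∧ A ⊆ S ∧ S ∩ B = ∅

/-- `P = NP` -/
def PEqNP : Prop := ∀ L : Set (List Bool), InP L ↔ InNP L

end Pool.Agent.J6H27.KS
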