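import Pool.Agent.J6H27.KS.Search

/-!
# Separability of the Kolmogorov-simple satisfiable formulas from the unsatisfiable formulas
-/

namespace Pool.Agent.J6H27.KS

open Pool.Agent.NPC Pool.Agent.H695R2 Pool.Agent.H695R2.IsoImp Pool.Agent.H660R2.NX Turing
open Filter

section

variable (V : List Bool → List Bool) (p : Polynomial ℕ)

/-- `u` codes a certificate for `a`. -/
def WA (x : (List Unit × List Bool) × List Bool) : Bool :=
  decide ((strip x.2).length ≤ p.eval x.1.2.length) &&
    decide (V (pairBits x.1.2 (strip x.2)) = [true])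

/-- the length of the padded certificates -/
def lenA (x : List Unit × List Bool) : ℕ := p.eval x.1.length + 1

theorem poly_WA (hV : Poly V) : Poly (WA V p) := by
  have h1 : Poly (fun x : (List Unit × List Bool) × List Bool => strip x.2) :=
    poly_strip.comp (Poly.snd Poly.id)
  have h2 : Poly (fun x : (List Unit × List Bool) × List Bool => p.eval x.1.2.length) :=
    (UPoly.eval (UPoly.length (Poly.snd (Poly.fst Poly.id))) p).toPoly
  have h3 : Poly (fun x : (List Unit × List Bool) × List Bool =>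
      V (pairBits x.1.2 (strip x.2))) :=
    hV.comp (poly_pairBits (Poly.snd (Poly.fst Poly.id)) h1)
  unfold WA
  fun_prop

theorem upoly_lenA : UPoly (lenA p) :=
  UPoly.add (UPoly.eval (UPoly.length (Poly.fst Poly.id)) p) (UPoly.const 1)

variable {V p} {L : Set (List Bool)}

theorem WA_sound (hL : ∀ x, x ∈ L ↔ ∃ w : List Bool, w.length ≤ p.eval x.length ∧
    V (pairBits x w) = [true]) {U : List Unit} {a u : List Bool} (h : WA V p ((U, a), u) = true) :
    a ∈ L := by
  simp only [WA, Bool.and_eq_true, decide_eq_true_eq] at h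
  exact (hL a).2 ⟨strip u, h.1, h.2⟩

theorem WA_complete (hL : ∀ x, x ∈ L ↔ ∃ w : List Bool, w.length ≤ p.eval x.length ∧
    V (pairBits x w) = [true]) {U : List Unit} {a : List Bool} (h : a ∈ L)
    (hU : a.length ≤ U.length) : ∃ u, u.length = lenA p (U, a) ∧ WA V p ((U, a), u) = true := by
  obtain ⟨w, hw, hVw⟩ := (hL a).1 h
  have h1 : w.length ≤ p.eval U.length := hw.trans (eval_mono p hU)
  refine ⟨pad (p.eval U.length) w, length_pad h1, ?_⟩
  simp only [WA, Bool.and_eq_true, decide_eq_true_eq, strip_pad]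
  exact ⟨hw, hVw⟩

end

section

variable (V : List Bool → List Bool) (p : Polynomial ℕ) (s : BF → Bool)
  (FA : (List Unit × List Bool) × List Bool → BF) (FB : List Unit × List Bool → BF)

/-- the test of the search for a certificate -/
def tA (x : List Unit × List Bool) (q : List Bool) : Bool := s (padF x.1.length (FA (x, q)))

/-- the result of the search for a certificate -/
def resA (x : List Unit × List Bool) : List Bool := (stp (tA s FA x))^[lenA p x] []

/-- the algorithm -/
def algA (x : List Unit × List Bool) : Bool := WA V p (x, resA p s FA x)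

/-- `z` codes a counterexample to the correctness of the algorithm, with a certificate. -/
def WB (x : List Unit × List Bool) : Bool :=
  (unbits (List Bool × List Bool) (strip x.2)).elim false (fun q =>
    decide (q.1.length ≤ x.1.length) && (decide (q.2.length = lenA p (x.1, q.1)) &&
      (WA V p ((x.1, q.1), q.2) && !(algA V p s FA (x.1, q.1)))))

/-- the length of the padded codes of counterexamples -/
def lenB (U : List Unit) : ℕ := 4 * U.length + (4 * (p.eval U.length + 1) + 3) + 1

/-- the test of the search for a counterexample -/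
def tB (U : List Unit) (q : List Bool) : Bool := s (padF U.length (FB (U, q)))

/-- the result of the search for a counterexample -/
def resB (U : List Unit) : List Bool := (stp (tB s FB U))^[lenB p U] []

/-- the counterexample found -/
def ce (U : List Unit) : List Bool :=
  (unbits (List Bool × List Bool) (strip (resB p s FB U))).elim [] Prod.fst

/-- The formulas on which the test must be wrong if there is a counterexample. -/
def hard (x : List Unit × Bool × List Bool) : BF :=
  if x.2.1 = true then padF x.1.length (FB (x.1, resB p s FB x.1 ++ x.2.2))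
  else padF x.1.length (FA ((x.1, ce p s FB x.1), resA p s FA (x.1, ce p s FB x.1) ++ x.2.2))

variable {V p s FA FB}

theorem poly_tA (hs : Poly s) (hFA : Poly FA) :
    Poly (fun x : (List Unit × List Bool) × List Bool => tA s FA x.1 x.2) := by
  unfold tA
  exact hs.comp (poly_padF (UPoly.length (Poly.fst (Poly.fst Poly.id))) hFA)

theorem poly_resA (hs : Poly s) (hFA : Poly FA) : Poly (resA p s FA) :=
  poly_search (poly_tA hs hFA) (upoly_lenA p)

theorem poly_algA (hV : Poly V) (hs : Poly s) (hFA : Poly FA) : Poly (algA V p s FA) := by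
  unfold algA
  exact (poly_WA V p hV).comp (Poly.pair Poly.id (poly_resA hs hFA))

theorem poly_WB (hV : Poly V) (hs : Poly s) (hFA : Poly FA) : Poly (WB V p s FA) := by
  have h1 : Poly (fun x : List Unit × List Bool =>
      unbits (List Bool × List Bool) (strip x.2)) :=
    poly_unbits.comp (poly_strip.comp (Poly.snd Poly.id))
  have h2 : Poly (fun x : (List Unit × List Bool) × (List Bool × List Bool) =>
      lenA p (x.1.1, x.2.1)) :=
    ((upoly_lenA p).comp (Poly.pair (Poly.fst (Poly.fst Poly.id))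
      (Poly.fst (Poly.snd Poly.id)))).toPoly
  have h3 : Poly (fun x : (List Unit × List Bool) × (List Bool × List Bool) =>
      WA V p ((x.1.1, x.2.1), x.2.2)) :=
    (poly_WA V p hV).comp (Poly.pair (Poly.pair (Poly.fst (Poly.fst Poly.id))
      (Poly.fst (Poly.snd Poly.id))) (Poly.snd (Poly.snd Poly.id)))
  have h4 : Poly (fun x : (List Unit × List Bool) × (List Bool × List Bool) =>
      algA V p s FA (x.1.1, x.2.1)) :=
    (poly_algA hV hs hFA).comp (Poly.pair (Poly.fst (Poly.fst Poly.id))
      (Poly.fst (Poly.snd Poly.id)))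
  unfold WB
  refine Poly.optElim (h := fun (x : List Unit × List Bool) (q : List Bool × List Bool) =>
    decide (q.1.length ≤ x.1.length) && (decide (q.2.length = lenA p (x.1, q.1)) &&
      (WA V p ((x.1, q.1), q.2) && !(algA V p s FA (x.1, q.1))))) h1 (NPC.Poly.const _) ?_
  exact Poly.and (by fun_prop) (Poly.and (Poly.dec_eq (by fun_prop) h2)
    (Poly.and h3 (Poly.not h4)))

theorem upoly_lenB : UPoly (lenB p) := by
  have h1 : UPoly (fun U : List Unit => U.length) := UPoly.length Poly.id
  exact UPoly.add (UPoly.add (UPoly.mul (UPoly.const 4) h1) (UPoly.add (UPoly.mul (UPoly.const 4)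
    (UPoly.add (UPoly.eval h1 p) (UPoly.const 1))) (UPoly.const 3))) (UPoly.const 1)

theorem poly_tB (hs : Poly s) (hFB : Poly FB) :
    Poly (fun x : List Unit × List Bool => tB s FB x.1 x.2) := by
  unfold tB
  exact hs.comp (poly_padF (UPoly.length (Poly.fst Poly.id)) hFB)

theorem poly_resB (hs : Poly s) (hFB : Poly FB) : Poly (resB p s FB) :=
  poly_search (poly_tB hs hFB) upoly_lenB

theorem poly_ce (hs : Poly s) (hFB : Poly FB) : Poly (ce p s FB) := by
  unfold ce
  exact Poly.optElim (h := fun _ (q : List Bool × List Bool) => q.1)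
    (poly_unbits.comp (poly_strip.comp (poly_resB hs hFB))) (NPC.Poly.const _) (by fun_prop)

theorem poly_hard (hs : Poly s) (hFA : Poly FA) (hFB : Poly FB) : Poly (hard p s FA FB) := by
  have h1 : Poly (fun x : List Unit × Bool × List Bool => resB p s FB x.1) :=
    (poly_resB hs hFB).comp (Poly.fst Poly.id)
  have h2 : Poly (fun x : List Unit × Bool × List Bool => ce p s FB x.1) :=
    (poly_ce hs hFB).comp (Poly.fst Poly.id)
  have h3 : Poly (fun x : List Unit × Bool × List Bool => resA p s FA (x.1, ce p s FB x.1)) :=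
    (poly_resA hs hFA).comp (Poly.pair (Poly.fst Poly.id) h2)
  have h4 : Poly (fun x : List Unit × Bool × List Bool =>
      FB (x.1, resB p s FB x.1 ++ x.2.2)) := hFB.comp (by fun_prop)
  have h5 : Poly (fun x : List Unit × Bool × List Bool =>
      FA ((x.1, ce p s FB x.1), resA p s FA (x.1, ce p s FB x.1) ++ x.2.2)) :=
    hFA.comp (by fun_prop)
  unfold hard
  exact Poly.ite (p := fun x : List Unit × Bool × List Bool => x.2.1 = true) (by fun_prop)
    (poly_padF (UPoly.length (Poly.fst Poly.id)) h4) (poly_padF (UPoly.length (Poly.fst Poly.id)) h5)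

theorem length_hard (x : List Unit × Bool × List Bool) :
    x.1.length ≤ (bits (hard p s FA FB x)).length := by
  unfold hard
  split_ifs <;> exact length_bits_padF _ _

/-- If the test is right about the six formulas, then there is no counterexample. -/
theorem no_counterexample {L : Set (List Bool)}
    (hL : ∀ x, x ∈ L ↔ ∃ w : List Bool, w.length ≤ p.eval x.length ∧ V (pairBits x w) = [true])
    (hFA : ∀ x q, Sat (FA (x, q)) ↔ ∃ u, q <+: u ∧ u.length = lenA p x ∧ WA V p (x, u) = true)
    (hFB : ∀ U q, Sat (FB (U, q)) ↔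
      ∃ u, q <+: u ∧ u.length = lenB p U ∧ WB V p s FA (U, u) = true)
    {U : List Unit} (h : ∀ b : Bool, ∀ τ ∈ [[], [true], [false]],
      (s (hard p s FA FB (U, b, τ)) = true ↔ Sat (hard p s FA FB (U, b, τ))))
    {a : List Bool} (haU : a.length ≤ U.length) (ha : a ∈ L) : algA V p s FA (U, a) = true := by
  by_contra hne
  have hne' : algA V p s FA (U, a) = false := by simpa using hne
  obtain ⟨u, hu, hWu⟩ := WA_complete hL ha haU
  -- the search for a counterexample succeeds
  have hB := search_correct (t := tB s FB U)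
    (W := fun u => u.length = lenB p U ∧ WB V p s FA (U, u) = true) (len := lenB p U)
    (fun u hu => hu.1) (by
      have hsz : (bits (a, u)).length ≤ 4 * U.length + (4 * (p.eval U.length + 1) + 3) := by
        rw [bits_length, sz_pair]
        have e1 := sz_listBool_le a
        have e2 := sz_listBool_le u
        unfold lenA at hu
        simp only at hu
        omega
      refine ⟨pad _ (bits (a, u)), length_pad hsz, ?_⟩
      simp only [WB, strip_pad, unbits_bits, Option.elim_some, Bool.and_eq_true,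
        decide_eq_true_eq, Bool.not_eq_true']
      exact ⟨haU, hu, hWu, hne'⟩)
    (by
      intro τ hτ
      have := h true τ hτ
      simp only [hard, if_true] at this
      unfold tB
      unfold resB at this
      rw [show (stp fun q => s (padF U.length (FB (U, q)))) = stp (tB s FB U) from rfl, this,
        sat_padF, hFB])
  obtain ⟨_, hB⟩ := hB
  change WB V p s FA (U, resB p s FB U) = true at hB
  unfold WB at hB
  cases hd : unbits (List Bool × List Bool) (strip (resB p s FB U)) with
  | none => rw [hd] at hB; simp at hB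
  | some q =>
    rw [hd] at hB
    simp only [Option.elim_some, Bool.and_eq_true, decide_eq_true_eq,
      Bool.not_eq_true'] at hB
    obtain ⟨h1, h2, h3, h4⟩ := hB
    have hce : ce p s FB U = q.1 := by
      unfold ce
      rw [hd]
      rfl
    -- the search for a certificate for the counterexample succeeds
    have hA := search_correct (t := tA s FA (U, q.1))
      (W := fun u => u.length = lenA p (U, q.1) ∧ WA V p ((U, q.1), u) = true)
      (len := lenA p (U, q.1)) (fun u hu => hu.1) ⟨q.2, h2, h3⟩ (by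
        intro τ hτ
        have := h false τ hτ
        simp only [hard, Bool.false_eq_true, if_false, hce] at this
        unfold tA
        unfold resA at this
        rw [show (stp fun q_1 => s (padF (U, q.1).1.length (FA ((U, q.1), q_1)))) =
          stp (tA s FA (U, q.1)) from rfl, this, sat_padF, hFA])
    have h5 : algA V p s FA (U, q.1) = true := hA.2
    rw [h4] at h5
    exact Bool.false_ne_true h5

end

/-! ### The hard formulas have short descriptions -/

theorem poly_le_pow (Q : Polynomial ℕ) : ∃ k : ℕ, ∀ n : ℕ, 2 ≤ n → Q.eval n + 1 ≤ n ^ k := by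
  induction Q using Polynomial.induction_on' with
  | add P Q hP hQ =>
    obtain ⟨k, hk⟩ := hP
    obtain ⟨l, hl⟩ := hQ
    refine ⟨k + l + 1, fun n hn => ?_⟩
    have h1 := hk n hn
    have h2 := hl n hn
    have h3 : 1 ≤ n ^ k := Nat.one_le_pow _ _ (by omega)
    have h4 : 1 ≤ n ^ l := Nat.one_le_pow _ _ (by omega)
    rw [Polynomial.eval_add, pow_succ, pow_add]
    have h5 : n ^ k + n ^ l ≤ n ^ k * n ^ l * 2 := by
      nlinarith [Nat.mul_le_mul h3 h4, Nat.mul_le_mul_left (n ^ k) h4,
        Nat.mul_le_mul_right (n ^ l) h3]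
    have h6 : n ^ k * n ^ l * 2 ≤ n ^ k * n ^ l * n := Nat.mul_le_mul_left _ hn
    omega
  | monomial e c =>
    refine ⟨c + e + 1, fun n hn => ?_⟩
    rw [Polynomial.eval_monomial, pow_succ, pow_add]
    have h1 : c < n ^ c := (Nat.lt_two_pow_self).trans_le (Nat.pow_le_pow_left hn c)
    have h3 : 1 ≤ n ^ e := Nat.one_le_pow _ _ (by omega)
    have h4 : c * n ^ e + 1 ≤ n ^ c * n ^ e := by nlinarith
    have h5 : n ^ c * n ^ e ≤ n ^ c * n ^ e * n := Nat.le_mul_of_pos_right _ (by omega)
    omega

theorem size_le_log (j : ℕ) : j.size ≤ Nat.log 2 j + 1 :=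
  Nat.size_le.2 (Nat.lt_pow_succ_log_self (by norm_num) j)

theorem log_log_le {j N : ℕ} (h : 2 ^ 2 ^ j ≤ N) : j ≤ Nat.log 2 (Nat.log 2 N) := by
  have h1 : 2 ^ j ≤ Nat.log 2 N := by
    have := Nat.log_mono_right (b := 2) h
    rwa [Nat.log_pow (by norm_num)] at this
  have := Nat.log_mono_right (b := 2) h1
  rwa [Nat.log_pow (by norm_num)] at this

theorem mem_K {U : Mach} {c : ℕ}
    (hU : ∀ M : Mach, ∃ (code : List Bool → List Bool) (d : ℕ) (q : Polynomial ℕ),
      (∀ y, (code y).length ≤ c * y.length + d) ∧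
      ∀ y x t, M.Outputs y x t → U.Outputs (code y) x (q.eval (y.length + t)))
    {g G : ℕ → ℕ}
    (hg : ∀ᶠ n in atTop, (4 * c + 1) * Nat.log 2 (Nat.log 2 (Nat.log 2 n)) ≤ g n)
    (hG : ∀ k : ℕ, ∀ᶠ n in atTop, n ^ k ≤ G n)
    {H : List Unit × Bool × List Bool → BF} (hH : Poly H)
    (hlen : ∀ x, x.1.length ≤ (bits (H x)).length) :
    ∃ j₀ : ℕ, ∀ j ≥ j₀, ∀ (b : Bool) (τ : List Bool), τ.length ≤ 1 →
      bits (H (List.replicate (2 ^ 2 ^ j) (), b, τ)) ∈ K U g G := by
  obtain ⟨M, r, hM⟩ := exists_mach hH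
  obtain ⟨code, d, q, hcode, hsim⟩ := hU M
  obtain ⟨k, hk⟩ := poly_le_pow (q.comp (Polynomial.C 4 * Polynomial.X + Polynomial.C 15 +
    r.comp (Polynomial.X + Polynomial.C 9)))
  obtain ⟨n₁, h₁⟩ := eventually_atTop.1 hg
  obtain ⟨n₂, h₂⟩ := eventually_atTop.1 (hG k)
  refine ⟨n₁ + n₂ + 2 ^ (15 * c + d) + 2, fun j hj b τ hτ => ?_⟩
  set x := bits (H (List.replicate (2 ^ 2 ^ j) (), b, τ)) with hx
  have hN : 2 ^ 2 ^ j ≤ x.length := by
    have := hlen (List.replicate (2 ^ 2 ^ j) (), b, τ)
    rwa [List.length_replicate] at this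
  have hj1 : j ≤ 2 ^ 2 ^ j := Nat.lt_two_pow_self.le.trans Nat.lt_two_pow_self.le
  have hjN : j ≤ x.length := hj1.trans hN
  have hpos : 0 < 2 ^ (15 * c + d) := by positivity
  have hsb := sz_bool_le b
  have hsτ := sz_listBool_le τ
  have hsj := sz_nat_le j
  have hsz : (bits (j, b, τ)).length ≤ 4 * j.size + 11 := by
    rw [bits_length, sz_pair, sz_pair]
    omega
  refine ⟨code (bits (j, b, τ)), ?_, q.eval ((bits (j, b, τ)).length +
    r.eval (2 ^ 2 ^ j + sz (b, τ))), ?_, hsim _ _ _ (hM j (b, τ))⟩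
  · refine le_trans ?_ (h₁ x.length (by omega))
    have e1 := hcode (bits (j, b, τ))
    have e2 := size_le_log j
    have e3 : Nat.log 2 j ≤ Nat.log 2 (Nat.log 2 (Nat.log 2 x.length)) :=
      Nat.log_mono_right (log_log_le hN)
    have e4 : 15 * c + d ≤ Nat.log 2 j := by
      have := Nat.log_mono_right (b := 2) (show 2 ^ (15 * c + d) ≤ j by omega)
      rwa [Nat.log_pow (by norm_num)] at this
    calc (code (bits (j, b, τ))).length ≤ c * (4 * (Nat.log 2 j + 1) + 11) + d := by
          refine e1.trans (Nat.add_le_add_right (Nat.mul_le_mul_left _ ?_) _)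
          omega
      _ = 4 * c * Nat.log 2 j + (15 * c + d) := by ring
      _ ≤ 4 * c * Nat.log 2 j + Nat.log 2 j := Nat.add_le_add_left e4 _
      _ = (4 * c + 1) * Nat.log 2 j := by ring
      _ ≤ (4 * c + 1) * Nat.log 2 (Nat.log 2 (Nat.log 2 x.length)) := Nat.mul_le_mul_left _ e3
  · have e1 := h₂ x.length (by omega)
    have e2 := hk x.length (by omega)
    refine lt_of_lt_of_le (Nat.lt_of_lt_of_le ?_ e2) e1
    rw [Polynomial.eval_comp]
    refine Nat.lt_succ_of_le (eval_mono q ?_)
    simp only [Polynomial.eval_add, Polynomial.eval_mul, Polynomial.eval_C, Polynomial.eval_X,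
      Polynomial.eval_comp]
    have e3 : j.size ≤ j := Poly.size_le_self j
    have e4 : r.eval (2 ^ 2 ^ j + sz (b, τ)) ≤ r.eval (x.length + 9) := by
      apply eval_mono
      rw [sz_pair]
      omega
    omega

/-! ### The size of the padding -/

/-- The first number of the form `2 ^ 2 ^ j`, `j ≥ j₀`, that is at least `n`. -/
def dsq (j₀ n : ℕ) : ℕ := (fun M => if M < n then M * M else M)^[n] (2 ^ 2 ^ j₀)

theorem dsq_aux (j₀ n k : ℕ) :
    (∃ j ≥ j₀, (fun M => if M < n then M * M else M)^[k] (2 ^ 2 ^ j₀) = 2 ^ 2 ^ j) ∧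
    (n ≤ (fun M => if M < n then M * M else M)^[k] (2 ^ 2 ^ j₀) ∨
      k ≤ (fun M => if M < n then M * M else M)^[k] (2 ^ 2 ^ j₀)) ∧
    (fun M => if M < n then M * M else M)^[k] (2 ^ 2 ^ j₀) ≤ 2 ^ 2 ^ j₀ + n * n := by
  induction k with
  | zero => exact ⟨⟨j₀, le_rfl, rfl⟩, Or.inr (Nat.zero_le _), Nat.le_add_right _ _⟩
  | succ k ih =>
    rw [Function.iterate_succ_apply']
    generalize (fun M => if M < n then M * M else M)^[k] (2 ^ 2 ^ j₀) = M at ih
    obtain ⟨⟨j, hj, h1⟩, h2, h3⟩ := ih
    by_cases h : M < n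
    · simp only [h, if_true]
      have hM : 2 ≤ M := by
        rw [h1]
        calc 2 = 2 ^ 1 := rfl
          _ ≤ 2 ^ 2 ^ j := Nat.pow_le_pow_right (by norm_num) (Nat.one_le_two_pow)
      refine ⟨⟨j + 1, by omega, ?_⟩, Or.inr ?_, ?_⟩
      · rw [h1, ← pow_add]
        congr 1
        ring
      · have : k ≤ M := by
          rcases h2 with h2 | h2
          · omega
          · exact h2
        nlinarith
      · have : M * M ≤ n * n := Nat.mul_le_mul h.le h.le
        exact this.trans (Nat.le_add_left _ _)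
    · simp only [h, if_false]
      exact ⟨⟨j, hj, h1⟩, Or.inl (by omega), h3⟩

theorem dsq_spec (j₀ n : ℕ) : ∃ j ≥ j₀, dsq j₀ n = 2 ^ 2 ^ j := (dsq_aux j₀ n n).1

theorem le_dsq (j₀ n : ℕ) : n ≤ dsq j₀ n := by
  rcases (dsq_aux j₀ n n).2.1 with h | h <;> exact h

theorem upoly_dsq (j₀ : ℕ) : UPoly (fun a : List Bool => dsq j₀ a.length) := by
  have h2 : UPoly (fun a : List Bool => 2 ^ 2 ^ j₀ + a.length * a.length) :=
    UPoly.add (UPoly.const _) (UPoly.mul (UPoly.length Poly.id) (UPoly.length Poly.id))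
  obtain ⟨r, hr⟩ := h2.toPoly.sz_le
  have h1 : Poly (fun a : List Bool => dsq j₀ a.length) := by
    unfold dsq
    refine Poly.iterLen (l := fun a : List Bool => a) (s := fun _ => 2 ^ 2 ^ j₀)
      (F := fun (a : List Bool) M => if M < a.length then M * M else M) Poly.id
      (NPC.Poly.const _) (by fun_prop) (Polynomial.C 2 * r) ?_
    intro a k _
    have e1 := sz_nat_mono_le (dsq_aux j₀ a.length k).2.2
    have e2 := hr a
    simp only [Polynomial.eval_mul, Polynomial.eval_C]
    omega
  exact UPoly.of_le h1 h2 (fun a => (dsq_aux j₀ a.length a.length).2.2)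

/-! ### The main theorem -/

theorem peqnp_of_separable {U : Mach} {c : ℕ}
    (hU : ∀ M : Mach, ∃ (code : List Bool → List Bool) (d : ℕ) (q : Polynomial ℕ),
      (∀ y, (code y).length ≤ c * y.length + d) ∧
      ∀ y x t, M.Outputs y x t → U.Outputs (code y) x (q.eval (y.length + t)))
    {g G : ℕ → ℕ}
    (hg : ∀ᶠ n in atTop, (4 * c + 1) * Nat.log 2 (Nat.log 2 (Nat.log 2 n)) ≤ g n)
    (hG : ∀ k : ℕ, ∀ᶠ n in atTop, n ^ k ≤ G n)
    (h : PolySeparable (K U g G ∩ SAT) (K U g G ∩ SATᶜ)) : PEqNP := by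
  obtain ⟨S, ⟨VS, hVS, hS⟩, hS1, hS2⟩ := h
  -- the test
  let s : BF → Bool := fun φ => decide (VS (bits φ) = [true])
  have hs : Poly s := by
    have h0 : PC (bits : BF → List Bool) (fun x : List Bool => x) (fun φ => bits φ) := by
      obtain ⟨c, p, h⟩ := PC.id (ea := (bits : BF → List Bool))
      exact ⟨c, p, h⟩
    have h1 : Poly (fun φ : BF => (bits φ : List Bool)) :=
      PC.comp (g := fun x => x) (f := fun φ : BF => (bits φ : List Bool)) PC.rawIn h0
    exact Poly.dec_eq ((poly_of_polyTime hVS).comp h1) (NPC.Poly.const _)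
  have hsK : ∀ φ : BF, bits φ ∈ K U g G → (s φ = true ↔ Sat φ) := by
    intro φ hφ
    have e1 : s φ = true ↔ bits φ ∈ S := by
      simp only [s, decide_eq_true_eq]
      exact (hS _).symm
    rw [e1]
    have e2 : bits φ ∈ SAT ↔ Sat φ := bits_mem_lang
    constructor
    · intro h
      by_contra hn
      have : bits φ ∈ S ∩ (K U g G ∩ SATᶜ) := ⟨h, hφ, fun h' => hn (e2.1 h')⟩
      rw [hS2] at this
      exact this
    · intro h
      exact hS1 ⟨hφ, e2.2 h⟩
  refine fun L => ⟨fun h => h.inNP, ?_⟩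
  rintro ⟨V, p, hV, hL⟩
  have hV' := poly_of_polyTime hV
  obtain ⟨FA, hFA, hFA'⟩ := exists_family (poly_WA V p hV') (upoly_lenA p)
  obtain ⟨FB, hFB, hFB'⟩ := exists_family (poly_WB (p := p) hV' hs hFA) (upoly_lenB (p := p))
  obtain ⟨j₀, hj₀⟩ := mem_K hU hg hG (poly_hard (p := p) hs hFA hFB) length_hard
  -- the algorithm
  have hd : Poly (fun a : List Bool => algA V p s FA (List.replicate (dsq j₀ a.length) (), a)) :=
    (poly_algA hV' hs hFA).comp (Poly.pair (upoly_dsq j₀) Poly.id)
  refine ⟨_, polyTime_of_poly hd, fun a => ?_⟩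
  simp only [List.cons.injEq, and_true]
  constructor
  · intro ha
    obtain ⟨j, hj, e⟩ := dsq_spec j₀ a.length
    refine no_counterexample hL hFA' hFB' ?_ ?_ ha
    · intro b τ hτ
      apply hsK
      rw [e]
      apply hj₀ j hj
      simp only [List.mem_cons, List.not_mem_nil, or_false] at hτ
      rcases hτ with rfl | rfl | rfl <;> simp
    · rw [List.length_replicate]
      exact le_dsq _ _
  · intro h
    exact WA_sound hL h

theorem separable_of_peqnp (h : PEqNP) (A : Set (List Bool)) : PolySeparable (A ∩ SAT) SATᶜ :=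
  ⟨SAT, (h SAT).2 inNP_SAT, Set.inter_subset_right, Set.inter_compl_self _⟩

theorem PolySeparable.mono {A A' B B' : Set (List Bool)} (h : PolySeparable A B) (hA : A' ⊆ A)
    (hB : B' ⊆ B) : PolySeparable A' B' := by
  obtain ⟨S, hS, h1, h2⟩ := h
  refine ⟨S, hS, hA.trans h1, ?_⟩
  rw [← Set.subset_empty_iff, ← h2]
  exact Set.inter_subset_inter_right _ hB

/-- `C k ≤ 2 ^ k` for large `k` -/
theorem mul_le_two_pow {C k : ℕ} (h : 4 * C ≤ k) : C * k ≤ 2 ^ k := by
  have h1 : k / 2 < 2 ^ (k / 2) := Nat.lt_two_pow_self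
  have h2 : 2 ^ (k / 2) * 2 ^ (k / 2) ≤ 2 ^ k := by
    rw [← pow_add]
    exact Nat.pow_le_pow_right (by norm_num) (by omega)
  have h3 : k + 1 ≤ 2 * (k / 2 + 1) := by omega
  have h4 : k * k ≤ 4 * ((k / 2 + 1) * (k / 2 + 1)) := by nlinarith
  have h5 : (k / 2 + 1) * (k / 2 + 1) ≤ 2 ^ (k / 2) * 2 ^ (k / 2) := Nat.mul_le_mul h1 h1
  have h6 : 4 * (C * k) ≤ k * k := by nlinarith
  omega

theorem mul_log_le {C x : ℕ} (h : 2 ^ (4 * C) ≤ x) : C * Nat.log 2 x ≤ x := by
  have h0 : x ≠ 0 := by
    have : 0 < 2 ^ (4 * C) := by positivity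
    omega
  have h1 : 4 * C ≤ Nat.log 2 x := by
    have := Nat.log_mono_right (b := 2) h
    rwa [Nat.log_pow (by norm_num)] at this
  exact (mul_le_two_pow h1).trans (Nat.pow_log_le_self 2 h0)

theorem clog_ok (C : ℕ) :
    ∀ᶠ n in atTop, C * Nat.log 2 (Nat.log 2 (Nat.log 2 n)) ≤ Nat.clog 2 n := by
  refine eventually_atTop.2 ⟨2 ^ 2 ^ (4 * C), fun n hn => ?_⟩
  have h1 : 2 ^ (4 * C) ≤ Nat.log 2 n := by
    have := Nat.log_mono_right (b := 2) hn
    rwa [Nat.log_pow (by norm_num)] at this
  have h2 := mul_log_le h1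
  have h3 : Nat.log 2 (Nat.log 2 (Nat.log 2 n)) ≤ Nat.log 2 (Nat.log 2 n) := Nat.log_le_self _ _
  have h4 : Nat.log 2 n ≤ Nat.clog 2 n := Nat.log_le_clog 2 n
  exact ((Nat.mul_le_mul_left C h3).trans h2).trans h4

theorem pow_clog_ok (k : ℕ) : ∀ᶠ n in atTop, n ^ k ≤ n ^ Nat.clog 2 n := by
  refine eventually_atTop.2 ⟨2 ^ k, fun n hn => ?_⟩
  have h0 : 0 < 2 ^ k := by positivity
  refine Nat.pow_le_pow_right (by omega) ?_
  have := Nat.clog_mono_right 2 hn
  rwa [Nat.clog_pow 2 k (by norm_num)] at this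

end Pool.Agent.J6H27.KS
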