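import Pool.Agent.H660R2.NX.Run
import Pool.Agent.J6H27.KS.Defs

/-!
# Computations whose time is measured by an arbitrary function
-/

namespace Pool.Agent.J6H27.KS

open Pool.Agent.NPC Turing
open Function (update)

/-- Time-bounded computability: the time is polynomial in `B a`. -/
def TB {α β : Type} (ea : α → List Bool) (eb : β → List Bool) (B : α → ℕ) (f : α → β) : Prop :=
  ∃ (c : Cmd ℕ) (p : Polynomial ℕ), ∀ a, Runs c (inp (ea a)) (inp (eb (f a))) (p.eval (B a))

section

variable {α β γ : Type} {ea : α → List Bool} {eb : β → List Bool} {ec : γ → List Bool} {B : α → ℕ}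

theorem TB.length_le {f : α → β} (h : TB ea eb B f) (hB : ∀ a, (ea a).length ≤ B a) :
    ∃ p : Polynomial ℕ, ∀ a, (eb (f a)).length ≤ p.eval (B a) := by
  obtain ⟨c, p, h⟩ := h
  refine ⟨Polynomial.X + p, fun a => ?_⟩
  obtain ⟨t, ht, hr⟩ := h a
  have h1 := hr.length_le 0
  have h2 := hB a
  simp only [inp, Function.update_self] at h1
  simp only [Polynomial.eval_add, Polynomial.eval_X]
  omega

theorem TB.comp {g : β → γ} {f : α → β} (hg : PC eb ec g) (hf : TB ea eb B f)
    (hB : ∀ a, (ea a).length ≤ B a) : TB ea ec B (fun a => g (f a)) := by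
  obtain ⟨q, hq⟩ := hf.length_le hB
  obtain ⟨c, p, hf⟩ := hf
  obtain ⟨d, r, hg⟩ := hg
  refine ⟨Cmd.seq c d, p + r.comp q, fun a => ?_⟩
  refine ((hf a).seq (hg (f a))).mono ?_
  simp only [Polynomial.eval_add, Polynomial.eval_comp]
  exact Nat.add_le_add_left (eval_mono r (hq a)) _

theorem PC.toTB {f : α → β} (hf : PC ea eb f) (hB : ∀ a, (ea a).length ≤ B a) : TB ea eb B f := by
  obtain ⟨c, p, h⟩ := hf
  exact ⟨c, p, fun a => (h a).mono (eval_mono p (hB a))⟩

end

/-! ### Iteration -/

section

variable {α β γ ν δ : Type} [TEnc β] [TEnc γ] [TEnc ν] [TEnc δ] {ea : α → List Bool} {B : α → ℕ}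

/-- Iterate a function as many times as an object is large. -/
theorem TB.iterate {n : α → ν} {x : α → β} {f : β → β}
    (h : TB ea bits B (fun a => (n a, x a))) (hf : Poly f)
    (hB : ∀ a, (ea a).length ≤ B a) (q : Polynomial ℕ)
    (hq : ∀ a, ∀ k ≤ sz (n a), sz (f^[k] (x a)) ≤ q.eval (B a)) :
    TB ea bits B (fun a => f^[sz (n a)] (x a)) := by
  obtain ⟨u', hu'⟩ := h.length_le hB
  obtain ⟨d, r, hd⟩ := h
  obtain ⟨c, p, hf⟩ := hf
  refine ⟨Cmd.seq d (Cmd.seq split (Cmd.loop 1 (Cmd.seq (Cmd.pop 1) (ev c)))),
    r + (Polynomial.C 5 * u' + Polynomial.C 3) + ((p.comp q + Polynomial.C 2) * u' +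
      Polynomial.C 1), fun a => ?_⟩
  have h1 := hd a
  rw [inp_eq_st, inp_eq_st] at h1
  rw [inp_eq_st, inp_eq_st]
  have h2 := split_runs (toT (n a)) (toT (x a))
  have h3 := loop_runs hf (q.eval (B a)) (toT (n a)).enc.reverse (x a) (by
    intro k hk
    rw [bits_length]
    exact hq a k (by simpa [T.size, sz] using hk))
  refine (h1.seq (h2.seq h3)).conv rfl ?_ ?_
  · simp [T.size, sz]
  · have e1 := hu' a
    have e4 : (toT (n a)).enc.length ≤ u'.eval (B a) := by
      refine le_trans ?_ e1
      rw [bits_length, sz_pair]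
      change sz (n a) ≤ _
      omega
    simp only [List.length_reverse, Polynomial.eval_add, Polynomial.eval_mul, Polynomial.eval_C,
      Polynomial.eval_comp]
    have e2 : (toT (n a)).size = (toT (n a)).enc.length := rfl
    rw [e2]
    have e3 : (Polynomial.eval (Polynomial.eval (B a) q) p + 2) * (toT (n a)).enc.length ≤
      (Polynomial.eval (Polynomial.eval (B a) q) p + 2) *
        Polynomial.eval (B a) u' := Nat.mul_le_mul_left _ e4
    omega

/-- one step of a bounded iteration -/
def lstep (f : β → β) (s : List δ × β) : List δ × β :=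
  if s.1 = [] then s else (s.1.tail, f s.2)

theorem poly_lstep [DecidableEq δ] {f : β → β} (hf : Poly f) : Poly (lstep (δ := δ) f) := by
  unfold lstep
  fun_prop

omit [TEnc β] [TEnc δ] in
theorem lstep_iterate (f : β → β) : ∀ (k : ℕ) (l : List δ) (x : β),
    (lstep f)^[k] (l, x) = (l.drop k, f^[min k l.length] x) := by
  intro k
  induction k with
  | zero => intro l x; simp
  | succ k ih =>
    intro l x
    rw [Function.iterate_succ_apply]
    cases l with
    | nil =>
      have h : lstep f (([] : List δ), x) = ([], x) := rfl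
      rw [h, ih]
      simp
    | cons b l =>
      have h : lstep f (b :: l, x) = (l, f x) := by simp [lstep]
      rw [h, ih, List.length_cons, Nat.add_min_add_right, Function.iterate_succ_apply]
      simp

/-- Iterate a function as many times as a list is long. -/
theorem TB.iterLen [DecidableEq δ] {l : α → List δ} {x : α → β} {f : β → β}
    (h : TB ea bits B (fun a => (l a, x a))) (hf : Poly f)
    (hB : ∀ a, (ea a).length ≤ B a) (q : Polynomial ℕ)
    (hq : ∀ a, ∀ k ≤ (l a).length, sz (f^[k] (x a)) ≤ q.eval (B a)) :
    TB ea bits B (fun a => f^[(l a).length] (x a)) := by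
  obtain ⟨u', hu'⟩ := h.length_le hB
  have h1 : TB ea (bits : List δ × (List δ × β) → List Bool) B (fun a => (l a, (l a, x a))) :=
    TB.comp (g := fun s : List δ × β => (s.1, s)) (f := fun a => (l a, x a))
      (by change Poly (fun s : List δ × β => (s.1, s)); fun_prop) h hB
  have h2 := TB.iterate h1 (poly_lstep hf) hB (u' + q) (by
    intro a k _
    rw [lstep_iterate, sz_pair, Polynomial.eval_add]
    have e1 := hu' a
    rw [bits_length, sz_pair] at e1
    have e2 : sz ((l a).drop k) ≤ sz (l a) := Poly.sz_drop_le _ _
    have e3 := hq a (min k (l a).length) (Nat.min_le_right _ _)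
    omega)
  have h3 : TB ea bits B _ :=
    TB.comp (g := fun s : List δ × β => s.2)
      (by change Poly (fun s : List δ × β => s.2); fun_prop) h2 hB
  obtain ⟨c, p, h4⟩ := h3
  refine ⟨c, p, fun a => ?_⟩
  have h5 := h4 a
  have e : min (sz (l a)) (l a).length = (l a).length :=
    Nat.min_eq_right (length_lt_sz _).le
  beta_reduce at h5 ⊢
  rw [lstep_iterate, e] at h5
  exact h5

omit [TEnc β] in
theorem TB.mono {ea : α → List Bool} {eb : β → List Bool} {B B' : α → ℕ} {f : α → β}
    (h : TB ea eb B f) (hB : ∀ a, B a ≤ B' a) : TB ea eb B' f := by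
  obtain ⟨c, p, h⟩ := h
  exact ⟨c, p, fun a => (h a).mono (eval_mono p (hB a))⟩

end

/-! ### From programs to machines -/

/-- The machine of a program. -/
def ofCmd (c : Cmd ℕ) : Mach where
  tm := (c.map (Fin.ofNat (c.bd + 1))).toTM
  inE := Equiv.refl Bool
  outE := Equiv.refl Bool

theorem ofCmd_outputs {c : Cmd ℕ} {y x : List Bool} {n : ℕ} (h : Runs c (inp y) (inp x) n) :
    (ofCmd c).Outputs y x (n + 1) := by
  obtain ⟨t, ht, hr⟩ := h
  have h1 := hr.restrict (n := c.bd) (by omega)
  have hm : Nonempty (TM2OutputsInTime (c.map (Fin.ofNat (c.bd + 1))).toTM y (some x) (t + 1)) := by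
    apply toTM_outputs
    convert! h1 using 1
    · funext i
      by_cases hi : i = 0
      · subst hi; simp [inp]
      · have : (i : ℕ) ≠ 0 := fun h => hi (Fin.ext h)
        simp [inp, hi, this]
    · funext i
      by_cases hi : i = 0
      · subst hi; simp [inp]
      · have : (i : ℕ) ≠ 0 := fun h => hi (Fin.ext h)
        simp [inp, hi, this]
  obtain ⟨hm⟩ := hm
  exact ⟨outputs_conv (List.map_id y).symm (List.map_id x).symm (by omega) hm⟩

/-! ### Unary numbers from binary numbers -/

/-- one step of the expansion -/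
def dbl (s : List Bool × List Unit) : List Bool × List Unit :=
  if s.1 = [] then s else
    (s.1.tail, s.2 ++ (s.2 ++ (if s.1.head?.getD false = true then [()] else [])))

/-- the value of the digits `l` (most significant first) after `v` -/
def wv (v : ℕ) (l : List Bool) : ℕ := l.foldl (fun v b => 2 * v + b.toNat) v

theorem wv_ge (l : List Bool) : ∀ v, v ≤ wv v l := by
  induction l with
  | nil => intro v; exact le_rfl
  | cons b l ih => intro v; exact le_trans (by omega) (ih (2 * v + b.toNat))

theorem dbl_iterate : ∀ (l : List Bool) (k v : ℕ),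
    dbl^[k] (l, List.replicate v ()) = (l.drop k, List.replicate (wv v (l.take k)) ()) := by
  intro l k
  induction k generalizing l with
  | zero => intro v; simp [wv]
  | succ k ih =>
    intro v
    rw [Function.iterate_succ_apply]
    cases l with
    | nil =>
      have h : dbl ([], List.replicate v ()) = ([], List.replicate v ()) := rfl
      rw [h, ih]
      simp
    | cons b l =>
      have h : dbl (b :: l, List.replicate v ()) = (l, List.replicate (2 * v + b.toNat) ()) := by
        have e : 2 * v + b.toNat = v + (v + b.toNat) := by ring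
        rw [e, ← List.replicate_append_replicate, ← List.replicate_append_replicate]
        cases b <;> simp [dbl]
      rw [h, ih]
      simp [wv]

theorem wv_bits (n : ℕ) : wv 0 n.bits.reverse = n := by
  unfold wv
  rw [List.foldl_reverse]
  have key : ∀ l : List Bool, l.foldr (fun b v => 2 * v + b.toNat) 0 = valB l := by
    intro l
    induction l with
    | nil => rfl
    | cons b l ih =>
      rw [List.foldr_cons, ih]
      cases b <;> simp [valB] <;> omega
  rw [key, valB_bits]

theorem wv_take_le (l : List Bool) (k : ℕ) : wv 0 (l.take k) ≤ wv 0 l := by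
  have h : wv 0 l = wv (wv 0 (l.take k)) (l.drop k) := by
    unfold wv
    rw [← List.foldl_append, List.take_append_drop]
  rw [h]
  exact wv_ge _ _

theorem poly_dbl : Poly dbl := by
  unfold dbl
  fun_prop

theorem sz_units (n : ℕ) : sz (List.replicate n ()) = 2 * n + 1 := by
  induction n with
  | zero => rfl
  | succ n ih => rw [List.replicate_succ, sz_list_cons, ih]; simp; omega

theorem sz_unitList (l : List Unit) : sz l = 2 * l.length + 1 := by
  induction l with
  | nil => rfl
  | cons b l ih => rw [sz_list_cons, ih]; simp; omega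

theorem length_bits_le_sz (n : ℕ) : n.bits.length ≤ sz n := by
  have h1 := size_le_sz n
  rw [← Nat.size_eq_bits_len] at h1
  omega

section

variable {β γ : Type} [TEnc β] [TEnc γ]

/-- one step of the expansion, with a passive component -/
def dbl2 (s : (List Bool × List Unit) × β) : (List Bool × List Unit) × β := (dbl s.1, s.2)

omit [TEnc β] in
theorem dbl2_iterate (k : ℕ) : ∀ s : (List Bool × List Unit) × β,
    dbl2^[k] s = (dbl^[k] s.1, s.2) := by
  induction k with
  | zero => intro s; rfl
  | succ k ih => intro s; rw [Function.iterate_succ_apply, ih]; rfl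

/-- From a binary number to a unary number, in time polynomial in its value. -/
theorem tb_unary : TB (bits : ℕ × β → List Bool) (bits : List Unit × β → List Bool)
    (fun a => sz a + a.1) (fun a => (List.replicate a.1 (), a.2)) := by
  have hB : ∀ a : ℕ × β, (bits a).length ≤ sz a + a.1 := by
    intro a; rw [bits_length]; omega
  have h0 : TB (bits : ℕ × β → List Bool)
      (bits : List Bool × ((List Bool × List Unit) × β) → List Bool) (fun a => sz a + a.1)
      (fun a => (a.1.bits, ((a.1.bits.reverse, []), a.2))) := by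
    refine PC.toTB ?_ hB
    change Poly (fun a : ℕ × β => (a.1.bits, ((a.1.bits.reverse, ([] : List Unit)), a.2)))
    have e1 : Poly (fun a : ℕ × β => a.1.bits) := Poly.natBits (by fun_prop)
    fun_prop
  have hd : Poly (dbl2 (β := β)) := by
    have := poly_dbl
    unfold dbl2
    fun_prop
  have h1 := TB.iterLen h0 hd hB (Polynomial.C 20 * Polynomial.X + Polynomial.C 20) (by
    intro a k _
    rw [dbl2_iterate]
    have e1 := dbl_iterate a.1.bits.reverse k 0
    simp only [List.replicate_zero] at e1
    simp only [e1]
    have f1 := wv_take_le a.1.bits.reverse k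
    rw [wv_bits] at f1
    have g1 := sz_listBool_le (a.1.bits.reverse.drop k)
    have g3 := length_bits_le_sz a.1
    rw [List.length_drop, List.length_reverse] at g1
    obtain ⟨m, b⟩ := a
    simp only [sz_pair, sz_units, Polynomial.eval_add, Polynomial.eval_mul, Polynomial.eval_C,
      Polynomial.eval_X] at *
    omega)
  have h2 : PC (bits : (List Bool × List Unit) × β → List Bool)
      (bits : List Unit × β → List Bool) (fun s => (s.1.2, s.2)) := by
    change Poly (fun s : (List Bool × List Unit) × β => (s.1.2, s.2))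
    fun_prop
  obtain ⟨c, p, h⟩ := TB.comp h2 h1 hB
  refine ⟨c, p, fun a => ?_⟩
  have := h a
  convert this using 2
  have e1 := dbl_iterate a.1.bits.reverse a.1.bits.length 0
  simp only [List.replicate_zero] at e1
  simp only [dbl2_iterate, e1]
  rw [List.take_of_length_le (by rw [List.length_reverse]), wv_bits]

/-- doubling a unary number -/
def dup (s : List Unit × β) : List Unit × β := (s.1 ++ s.1, s.2)

omit [TEnc β] in
theorem dup_iterate (b : β) : ∀ k n : ℕ,
    dup^[k] (List.replicate n (), b) = (List.replicate (n * 2 ^ k) (), b) := by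
  intro k
  induction k with
  | zero => intro n; simp
  | succ k ih =>
    intro n
    rw [Function.iterate_succ_apply]
    have h : dup (List.replicate n (), b) = (List.replicate (n + n) (), b) := by
      simp [dup]
    rw [h, ih]
    congr 2
    rw [pow_succ]
    ring

/-- The power of two of a unary number. -/
theorem tb_pow {α : Type} {ea : α → List Bool} {B : α → ℕ} {n : α → ℕ} {y : α → β}
    (h : TB ea bits B (fun a => (List.replicate (n a) (), y a)))
    (hB : ∀ a, (ea a).length ≤ B a) (hn : ∀ a, 2 ^ n a ≤ B a) :
    TB ea bits B (fun a => (List.replicate (2 ^ n a) (), y a)) := by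
  obtain ⟨u', hu'⟩ := h.length_le hB
  have h0 : TB ea (bits : List Unit × (List Unit × β) → List Bool) B
      (fun a => (List.replicate (n a) (), ([()], y a))) :=
    TB.comp (g := fun s : List Unit × β => (s.1, ([()], s.2)))
      (by change Poly (fun s : List Unit × β => (s.1, ([()], s.2))); fun_prop) h hB
  have hd : Poly (dup (β := β)) := by
    unfold dup
    fun_prop
  have h1 := TB.iterLen h0 hd hB (u' + Polynomial.C 2 * Polynomial.X + 1) (by
    intro a k hk
    have e := dup_iterate (y a) k 1
    rw [List.replicate_one, one_mul] at e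
    rw [e]
    rw [List.length_replicate] at hk
    have e1 := hu' a
    rw [bits_length, sz_pair] at e1
    have e2 : 2 ^ k ≤ 2 ^ n a := Nat.pow_le_pow_right (by norm_num) hk
    have e3 := hn a
    simp only [sz_pair, sz_units, Polynomial.eval_add, Polynomial.eval_mul, Polynomial.eval_C,
      Polynomial.eval_X, Polynomial.eval_one]
    rw [sz_units] at e1
    omega)
  obtain ⟨c, p, h2⟩ := h1
  refine ⟨c, p, fun a => ?_⟩
  have h3 := h2 a
  have e := dup_iterate (y a) (n a) 1
  beta_reduce at h3 ⊢
  rw [List.replicate_one, one_mul] at e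
  rw [List.length_replicate, e] at h3
  exact h3

/-- A polynomial-time function of the unary number `2 ^ 2 ^ j` and some object `b` is computed by
some machine from the binary number `j` and `b`, in time polynomial in `2 ^ 2 ^ j` and the size of
`b`. -/
theorem exists_mach {G : List Unit × β → γ} (hG : Poly G) :
    ∃ (M : Mach) (r : Polynomial ℕ), ∀ (j : ℕ) (b : β),
      M.Outputs (bits (j, b)) (bits (G (List.replicate (2 ^ 2 ^ j) (), b)))
        (r.eval (2 ^ 2 ^ j + sz b)) := by
  have hB : ∀ a : ℕ × β, (bits a).length ≤ sz a + 2 ^ 2 ^ a.1 := by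
    intro a; rw [bits_length]; exact Nat.le_add_right _ _
  have e1 : ∀ n : ℕ, n ≤ 2 ^ n := fun n => Nat.lt_two_pow_self.le
  have h1 : TB (bits : ℕ × β → List Bool) (bits : List Unit × β → List Bool)
      (fun a => sz a + 2 ^ 2 ^ a.1) (fun a => (List.replicate a.1 (), a.2)) :=
    tb_unary.mono fun a => by
      have f1 := e1 a.1
      have f2 := e1 (2 ^ a.1)
      omega
  have h2 := tb_pow h1 hB (fun a => by
    have f2 := e1 (2 ^ a.1)
    omega)
  have h3 := tb_pow h2 hB (fun a => Nat.le_add_left _ _)
  obtain ⟨c, p, h⟩ := TB.comp hG h3 hB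
  refine ⟨ofCmd c, p.comp (Polynomial.C 9 * Polynomial.X + Polynomial.C 9) + 1, fun j b => ?_⟩
  obtain ⟨h4⟩ := ofCmd_outputs (h (j, b))
  refine ⟨outputs_conv rfl rfl ?_ h4⟩
  simp only [Polynomial.eval_add, Polynomial.eval_comp, Polynomial.eval_mul, Polynomial.eval_C,
    Polynomial.eval_X, Polynomial.eval_one]
  refine Nat.add_le_add_right (eval_mono p ?_) 1
  have f1 := sz_nat_le j
  have f2 := Poly.size_le_self j
  have f3 := e1 j
  have f4 := e1 (2 ^ j)
  simp only [sz_pair]
  omega

end

end Pool.Agent.J6H27.KS
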