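import Pool.Agent.H695R2.IsoImp.Member
import Pool.Agent.H660R2.NX.Run
import Pool.Agent.J6H27.KS.Time

/-!
# Satisfiability of Boolean formulas, and search with an unreliable test
-/

namespace Pool.Agent.J6H27.KS

open Pool.Agent.NPC Pool.Agent.H695R2 Pool.Agent.H695R2.IsoImp Turing

/-- satisfiability -/
def Sat (φ : BF) : Prop := ∃ σ : ℕ → Bool, φ.eval σ = true

/-- a valid formula -/
def topF : BF := BF.or (BF.var 0) (BF.neg (BF.var 0))

/-- an unsatisfiable formula -/
def botF : BF := BF.and (BF.var 0) (BF.neg (BF.var 0))

/-- a literal -/
def litF (l : Bool × ℕ) : BF := if l.1 = true then BF.var l.2 else BF.neg (BF.var l.2)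

/-- the formula of a formula in conjunctive normal form -/
def cnfF (φ : List (List (Bool × ℕ))) : BF := bigAnd topF (φ.map (fun c => bigOr botF (c.map litF)))

theorem eval_litF (σ : ℕ → Bool) (l : Bool × ℕ) : (litF l).eval σ = true ↔ σ l.2 = l.1 := by
  obtain ⟨b, n⟩ := l
  cases b <;> simp [litF, BF.eval]

theorem eval_topF (σ : ℕ → Bool) : topF.eval σ = true := by
  simp [topF, BF.eval]

theorem eval_botF (σ : ℕ → Bool) : botF.eval σ = false := by
  simp [botF, BF.eval]

theorem sat_cnfF (φ : List (List (Bool × ℕ))) : SatV ℕ φ ↔ Sat (cnfF φ) := by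
  unfold SatV Sat cnfF
  refine exists_congr fun σ => ?_
  rw [eval_bigAnd]
  simp only [List.mem_map, forall_exists_index, and_imp, forall_apply_eq_imp_iff₂, eval_topF,
    and_true, eval_bigOr, exists_exists_and_eq_and, eval_botF, eval_litF, or_false,
    Bool.false_eq_true]

theorem poly_litF : Poly litF := by
  unfold litF
  fun_prop

theorem poly_cnfF : Poly cnfF := by
  unfold cnfF
  have := poly_litF
  fun_prop

theorem hardI_Sat : HardI Sat := hardI_SAT.trans poly_cnfF sat_cnfF

/-- `SAT ∈ NP`. -/
theorem inNP_SAT : InNP SAT := by
  have hR : Poly (fun p : BF × List ℕ => p.1.eval (fun x => decide (x ∈ p.2))) :=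
    poly_eval (by fun_prop) (by fun_prop)
  obtain ⟨r, hr⟩ := (poly_varsL (f := fun φ : BF => φ) Poly.id).sz_le
  refine inNPP_of (P := Sat) hR r (fun φ => ?_)
  constructor
  · rintro ⟨σ, hσ⟩
    refine ⟨φ.varsL.filter (fun x => σ x), ?_, ?_⟩
    · refine le_trans ?_ (hr φ)
      generalize φ.varsL = l
      induction l with
      | nil => simp
      | cons b l ih =>
        rw [List.filter_cons]
        split_ifs
        · rw [sz_list_cons, sz_list_cons]; omega
        · rw [sz_list_cons]; omega
    · rw [← hσ]
      apply BF.eval_congr
      intro x hx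
      rw [← BF.mem_varsL] at hx
      cases h : σ x <;> simp [hx, h]
  · rintro ⟨w, _, hw⟩
    exact ⟨_, hw⟩

/-- A family of formulas expressing that a string `p` can be extended to a witness. -/
theorem exists_family {α : Type} [TEnc α] [TDec α] {W : α × List Bool → Bool} (hW : Poly W)
    {len : α → ℕ} (hlen : UPoly len) : ∃ F : α × List Bool → BF, Poly F ∧
      ∀ a p, Sat (F (a, p)) ↔ ∃ u, p <+: u ∧ u.length = len a ∧ W (a, u) = true := by
  obtain ⟨r, hr⟩ := hlen.sz_le
  have hR : Poly (fun x : (α × List Bool) × List Bool =>
      decide (x.2.take x.1.2.length = x.1.2) && (decide (x.2.length = len x.1.1) &&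
        W (x.1.1, x.2))) := by
    have h1 : Poly (fun x : (α × List Bool) × List Bool => len x.1.1) :=
      (hlen.comp (Poly.fst (Poly.fst Poly.id))).toPoly
    have h2 : Poly (fun x : (α × List Bool) × List Bool => x.2.take x.1.2.length) := by
      refine ((NPC.Poly.map (F := fun _ (y : Bool × ℕ) => y.1)
        (NPC.Poly.filter (p := fun (x : (α × List Bool) × List Bool) (y : Bool × ℕ) =>
          decide (y.2 < x.1.2.length)) (Poly.zipIdx (Poly.snd Poly.id)) ?_) ?_)).congr ?_
      · fun_prop
      · fun_prop
      · intro x
        generalize x.1.2.length = n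
        generalize x.2 = l
        have key : ∀ (l : List Bool) (k n : ℕ), ((l.zipIdx k).filter
            (fun y => decide (y.2 < n))).map (fun y => y.1) = l.take (n - k) := by
          intro l
          induction l with
          | nil => intro k n; simp
          | cons b l ih =>
            intro k n
            rw [List.zipIdx_cons, List.filter_cons]
            by_cases h : k < n
            · have e : n - k = (n - (k + 1)) + 1 := by omega
              rw [e, List.take_succ_cons]
              simp [h, ih]
            · have e : n - k = 0 := by omega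
              have e' : n - (k + 1) = 0 := by omega
              rw [e, List.take_zero]
              have := ih (k + 1) n
              rw [e', List.take_zero] at this
              simpa [h] using this
        have := key l 0 n
        simpa using this
    have h3 : Poly (fun x : (α × List Bool) × List Bool => W (x.1.1, x.2)) :=
      hW.comp (g := W) (f := fun x : (α × List Bool) × List Bool => (x.1.1, x.2)) (by fun_prop)
    exact Poly.and (Poly.dec_eq h2 (by fun_prop)) (Poly.and (Poly.dec_eq (by fun_prop) h1) h3)
  have hNP : InNP (lang (fun x : α × List Bool =>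
      ∃ u, x.2 <+: u ∧ u.length = len x.1 ∧ W (x.1, u) = true)) := by
    refine inNPP_of hR (Polynomial.C 4 * r + 1) (fun x => ?_)
    constructor
    · rintro ⟨u, h1, h2, h3⟩
      refine ⟨u, ?_, ?_⟩
      · have e1 := sz_listBool_le u
        have e2 := hr x.1
        rw [sz_units] at e2
        have e3 : r.eval (sz x.1) ≤ r.eval (sz x) := by
          apply eval_mono
          obtain ⟨a, p⟩ := x
          rw [sz_pair]
          change sz a ≤ _
          omega
        simp only [Polynomial.eval_add, Polynomial.eval_mul, Polynomial.eval_C,
          Polynomial.eval_one]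
        omega
      · simp only [Bool.and_eq_true, decide_eq_true_eq]
        exact ⟨(List.prefix_iff_eq_take.1 h1).symm, h2, h3⟩
    · rintro ⟨u, _, h⟩
      simp only [Bool.and_eq_true, decide_eq_true_eq] at h
      exact ⟨u, List.prefix_iff_eq_take.2 h.1.symm, h.2.1, h.2.2⟩
  obtain ⟨f, hf, hfL⟩ := hardI_Sat _ hNP
  refine ⟨fun x => f (bits x), ?_, fun a p => ?_⟩
  · have h1 : PC (bits : α × List Bool → List Bool) (fun x : List Bool => x) (fun x => bits x) :=
      PC.id
    exact PC.comp (g := f) (f := fun x : α × List Bool => bits x) hf h1
  · rw [← hfL (bits (a, p)), bits_mem_lang]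

/-! ### Search with an unreliable test -/

/-- Extend `p` by one bit if the test `t` approves. -/
def stp (t : List Bool → Bool) (p : List Bool) : List Bool :=
  if t (p ++ [true]) = true then p ++ [true]
  else if t (p ++ [false]) = true then p ++ [false] else p

theorem stp_length_le (t : List Bool → Bool) (p : List Bool) :
    (stp t p).length ≤ p.length + 1 := by
  unfold stp
  split_ifs <;> simp

theorem stp_iterate_length_le (t : List Bool → Bool) (k : ℕ) :
    ((stp t)^[k] []).length ≤ k := by
  induction k with
  | zero => simp
  | succ k ih =>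
    rw [Function.iterate_succ_apply']
    have := stp_length_le t ((stp t)^[k] [])
    omega

/-- The search stops, or it has approved the current string, which is as long as possible. -/
theorem stp_iterate (t : List Bool → Bool) (k : ℕ) :
    ((stp t)^[k] [] = [] ∨ t ((stp t)^[k] []) = true) ∧
      (((stp t)^[k] []).length = k ∨ stp t ((stp t)^[k] []) = (stp t)^[k] []) := by
  induction k with
  | zero => simp
  | succ k ih =>
    rw [Function.iterate_succ_apply']
    generalize (stp t)^[k] [] = p at ih
    obtain ⟨h1, h2⟩ := ih
    rcases h2 with h2 | h2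
    · by_cases ht : t (p ++ [true]) = true
      · have e : stp t p = p ++ [true] := by simp [stp, ht]
        rw [e]
        exact ⟨Or.inr ht, Or.inl (by simp [h2])⟩
      · by_cases hf : t (p ++ [false]) = true
        · have e : stp t p = p ++ [false] := by simp [stp, ht, hf]
          rw [e]
          exact ⟨Or.inr hf, Or.inl (by simp [h2])⟩
        · have e : stp t p = p := by simp [stp, ht, hf]
          rw [e, e]
          exact ⟨h1, Or.inr rfl⟩
    · rw [h2, h2]
      exact ⟨h1, Or.inr rfl⟩

/-- If the test is right about the result of the search and its two extensions, and there is a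
witness, then the search finds one. -/
theorem search_correct {t : List Bool → Bool} {W : List Bool → Prop} {len : ℕ}
    (hlen : ∀ u, W u → u.length = len) (hW : ∃ u, W u)
    (h : ∀ τ ∈ [[], [true], [false]], (t ((stp t)^[len] [] ++ τ) = true ↔
      ∃ u, ((stp t)^[len] [] ++ τ) <+: u ∧ W u)) :
    W ((stp t)^[len] []) := by
  obtain ⟨h1, h2⟩ := stp_iterate t len
  have h3 := stp_iterate_length_le t len
  generalize (stp t)^[len] [] = p at *
  have e0 := h [] (by simp)
  have e1 := h [true] (by simp)
  have e2 := h [false] (by simp)
  rw [List.append_nil] at e0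
  have h4 : ∃ u, p <+: u ∧ W u := by
    rcases h1 with h1 | h1
    · subst h1
      obtain ⟨u, hu⟩ := hW
      exact ⟨u, List.nil_prefix, hu⟩
    · exact e0.1 h1
  obtain ⟨u, hpu, hu⟩ := h4
  obtain ⟨v, rfl⟩ := hpu
  have h5 := hlen _ hu
  rw [List.length_append] at h5
  cases v with
  | nil => simpa using hu
  | cons b v =>
    exfalso
    rw [List.length_cons] at h5
    have h6 : stp t p = p := by
      rcases h2 with h2 | h2
      · omega
      · exact h2
    have h7 : t (p ++ [b]) = true := by
      cases b with
      | true => exact e1.2 ⟨_, ⟨v, by simp⟩, hu⟩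
      | false => exact e2.2 ⟨_, ⟨v, by simp⟩, hu⟩
    have h8 := congrArg List.length h6
    unfold stp at h8
    cases b with
    | true => simp [h7] at h8
    | false =>
      by_cases ht : t (p ++ [true]) = true
      · simp [ht] at h8
      · simp [ht, h7] at h8

/-- The search runs in polynomial time. -/
theorem poly_search {α : Type} [TEnc α] {t : α → List Bool → Bool}
    (ht : Poly (fun x : α × List Bool => t x.1 x.2)) {len : α → ℕ} (hlen : UPoly len) :
    Poly (fun a => (stp (t a))^[len a] []) := by
  obtain ⟨r, hr⟩ := hlen.sz_le
  have h1 : Poly (fun x : α × List Bool => t x.1 (x.2 ++ [true])) :=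
    ht.comp (g := fun x : α × List Bool => t x.1 x.2)
      (f := fun x : α × List Bool => (x.1, x.2 ++ [true])) (by fun_prop)
  have h2 : Poly (fun x : α × List Bool => t x.1 (x.2 ++ [false])) :=
    ht.comp (g := fun x : α × List Bool => t x.1 x.2)
      (f := fun x : α × List Bool => (x.1, x.2 ++ [false])) (by fun_prop)
  have h3 : Poly (fun x : α × List Bool => stp (t x.1) x.2) := by
    unfold stp
    fun_prop
  refine (Poly.iterLen (l := fun a => List.replicate (len a) ()) (s := fun _ => ([] : List Bool))
    (F := fun a => stp (t a)) hlen (NPC.Poly.const _) h3 (Polynomial.C 4 * r + 1) ?_).congr ?_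
  · intro a k hk
    rw [List.length_replicate] at hk
    have e1 := stp_iterate_length_le (t a) k
    have e2 := sz_listBool_le ((stp (t a))^[k] [])
    have e3 := hr a
    rw [sz_units] at e3
    simp only [Polynomial.eval_add, Polynomial.eval_mul, Polynomial.eval_C, Polynomial.eval_one]
    omega
  · intro a
    rw [List.length_replicate]

/-! ### Padding of formulas -/

/-- `φ` preceded by `2 k` negations -/
def padF (k : ℕ) (φ : BF) : BF := (fun ψ => BF.neg (BF.neg ψ))^[k] φ

theorem eval_padF (σ : ℕ → Bool) (φ : BF) : ∀ k, (padF k φ).eval σ = φ.eval σ := by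
  intro k
  induction k with
  | zero => rfl
  | succ k ih =>
    unfold padF at ih ⊢
    rw [Function.iterate_succ_apply']
    simp only [BF.eval, Bool.not_not]
    exact ih

theorem sat_padF {k : ℕ} {φ : BF} : Sat (padF k φ) ↔ Sat φ := by
  unfold Sat
  simp only [eval_padF]

theorem polish_padF (φ : BF) : ∀ k, (padF k φ).polish =
    (List.replicate k ()).flatMap (fun _ => [Sum.inl none, Sum.inl none]) ++ φ.polish := by
  intro k
  induction k with
  | zero => rfl
  | succ k ih =>
    unfold padF at ih ⊢
    rw [Function.iterate_succ_apply']
    simp only [BF.polish]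
    rw [ih, List.replicate_succ, List.flatMap_cons]
    simp

theorem poly_padF {α : Type} [TEnc α] {k : α → ℕ} {φ : α → BF} (hk : UPoly k) (hφ : Poly φ) :
    Poly (fun a => padF (k a) (φ a)) := by
  apply poly_of_polish
  simp only [polish_padF]
  have hk' : Poly (fun a => List.replicate (k a) ()) := hk
  fun_prop

theorem length_polish_padF (φ : BF) (k : ℕ) : k ≤ (padF k φ).polish.length := by
  rw [polish_padF, List.length_append, List.length_flatMap]
  simp
  omega

/-- The padding makes the encoding long. -/
theorem length_bits_padF (φ : BF) (k : ℕ) : k ≤ (bits (padF k φ)).length := by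
  rw [bits_length]
  change k ≤ sz (padF k φ).polish
  have h1 := length_lt_sz (padF k φ).polish
  have h2 := length_polish_padF φ k
  omega

end Pool.Agent.J6H27.KS
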