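import Pool.Agent.J6H27.KS.Time

/-!
# Simulation of arbitrary machines by programs, and a universal machine
-/

namespace Pool.Agent.J6H27.KS

open Pool.Agent.NPC Turing
open Function (update)
open Pool.Agent.H642R2.TMSim

/-- Every machine is simulated by a program, with polynomial slowdown. -/
theorem exists_cmd (M : Mach) : ∃ (c : Cmd ℕ) (q : Polynomial ℕ), ∀ y x t, M.Outputs y x t →
    Runs c (inp y) (inp x) (q.eval (y.length + t)) := by
  obtain ⟨tm, inE, outE⟩ := M
  haveI := tm.kFin
  haveI := tm.ΛFin
  haveI := tm.σFin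
  haveI := tm.Γk₀Fin
  let A : Set (Σ k, tm.Γ k) := (⋃ l, pushes (tm.m l)) ∪ Set.range (fun a => ⟨tm.k₀, a⟩)
  have hA : A.Finite := by
    refine Set.Finite.union (Set.finite_iUnion fun l => pushes_finite _) ?_
    exact Set.finite_range _
  obtain ⟨b, hb, ⟨C⟩⟩ := exists_cod A hA
  obtain ⟨bs, hbs, ⟨D⟩⟩ := exists_cod (Set.univ : Set (tm.Λ × tm.σ)) Set.finite_univ
  obtain ⟨B, hB⟩ : ∃ B, ∀ l, cst b bs (tm.m l) ≤ B := by
    obtain ⟨B, hB⟩ := (Set.finite_range (fun l => cst b bs (tm.m l))).bddAbove
    exact ⟨B, fun l => hB ⟨l, rfl⟩⟩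
  have hm : ∀ l, pushes (tm.m l) ⊆ A := fun l x hx => Or.inl (Set.mem_iUnion.2 ⟨l, hx⟩)
  let prog : Cmd ℕ := Cmd.seq (mv 0 2) (Cmd.seq (inLoop A C tm.k₀ inE.symm)
    (Cmd.seq (wr 1 (D.code (tm.main, tm.initialState))) (Cmd.seq (Cmd.loop 1 (body A C D tm.m))
      (Cmd.seq (outLoop A C tm.k₁ outE) (mv 2 0)))))
  let c := 2 * bs + B + 1
  refine ⟨prog, (Polynomial.C (b + 8) * Polynomial.X + Polynomial.C c * Polynomial.X +
    Polynomial.C (4 * b + 20) * (Polynomial.C (b + 1) * Polynomial.X +
      Polynomial.C c * Polynomial.X +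
      Polynomial.C (b + bs + 10)) + Polynomial.C (bs + 20)), fun y x t h => ?_⟩
  obtain ⟨⟨⟨n, hn⟩, hn'⟩⟩ := h
  simp only at hn hn'
  have hn1 : (flip bind (TM2.step tm.m))^[n]
      (some (initList tm (List.map inE.symm y))) =
      some (haltList tm (List.map outE.symm x)) := hn
  rw [initList_stk, haltList_stk] at hn1
  have hgood : Good A (one tm.k₀ (List.map inE.symm y)) := by
    intro k x hx
    by_cases hk : k = tm.k₀
    · subst hk; exact Or.inr ⟨x, rfl⟩
    · rw [one, Function.update_of_ne hk] at hx; simp at hx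
  obtain ⟨hg', hmain⟩ := main_runs A C D tm.m hb hbs hm B hB n _ _ _ hgood hn1
  -- input
  have r1 : Runs (mv 0 2) (inp y) (update (R A C [] (one tm.k₀ [])) 2 y.reverse)
      (4 * y.length + 1) := by
    refine mv_runs (by decide) y _ _ (by simp [inp]) ?_
    have : one (Γ := tm.Γ) tm.k₀ [] = fun _ => [] := Function.update_eq_self tm.k₀ _
    rw [this, R_empty]
    simp [inp]
  have r2 := inLoop_runs A C tm.k₀ inE.symm y.reverse []
  rw [List.append_nil, List.map_reverse, List.reverse_reverse] at r2
  have r3 : Runs (wr 1 (D.code (tm.main, tm.initialState)))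
      (R A C [] (one tm.k₀ (List.map inE.symm y)))
      (R A C (D.code (tm.main, tm.initialState))
        (one tm.k₀ (List.map inE.symm y))) (bs + 1) := by
    refine (wr_runs _ _).conv rfl ?_ (by rw [D.len])
    rw [R_one, List.append_nil, R_update_one]
  have r5 := outLoop_runs A C hb tm.k₁ outE
    (List.map outE.symm x) [] (by
      intro x hx
      have := hg' tm.k₁ x
      rw [one, Function.update_self] at this
      exact this hx)
  have e5 : update (R A C [] (one tm.k₁ (List.map outE.symm x))) 2 [] =
      R A C [] (one tm.k₁ (List.map outE.symm x)) := by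
    have := Function.update_eq_self 2
      (R A C [] (one tm.k₁ (List.map outE.symm x)))
    rwa [R_two] at this
  rw [e5, List.append_nil, List.map_map] at r5
  have e6 : (⇑outE ∘ ⇑outE.symm) = id := by
    funext x; exact outE.apply_symm_apply x
  rw [e6, List.map_id, List.length_map] at r5
  have r6 : Runs (mv 2 0) (update (fun _ => []) 2 x.reverse) (inp x)
      (4 * x.length + 1) := by
    refine (mv_runs (by decide) x.reverse _ _ (by simp) ?_).mono (by simp)
    simp [inp]
  have hall := r1.seq (r2.seq (r3.seq (hmain.seq (r5.seq r6))))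
  -- length of the output
  have hlen : x.length ≤ (b + 1) * y.length + n * c + (b + bs + 10) := by
    obtain ⟨t, ht, hr⟩ := hmain
    have := hr.length_le (idx tm.k₁)
    rw [R_idx, R_idx] at this
    have e7 : ∀ l : List (tm.Γ tm.k₁), (encS A C tm.k₁ l).length = b * l.length := by
      intro l
      induction l with
      | nil => simp [encS]
      | cons x l ih =>
        have : encS A C tm.k₁ (x :: l) = C.code ⟨tm.k₁, x⟩ ++ encS A C tm.k₁ l := by
          simp [encS]
        rw [this, List.length_append, C.len, ih, List.length_cons]; ring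
    rw [e7, e7] at this
    have e8 : (one tm.k₁ (List.map outE.symm x) tm.k₁).length =
        x.length := by
      rw [one, Function.update_self, List.length_map]
    have e9 : (one tm.k₀ (List.map inE.symm y) tm.k₁).length ≤
        y.length := by
      unfold one
      by_cases hk : tm.k₁ = tm.k₀
      · have : (update (fun _ => []) tm.k₀ (List.map inE.symm y) tm.k₀ :
          List (tm.Γ tm.k₀)).length ≤ y.length := by
          rw [Function.update_self, List.length_map]
        have key : ∀ k, k = tm.k₀ → (update (fun _ => []) tm.k₀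
          (List.map inE.symm y) k : List (tm.Γ k)).length ≤
            y.length := by
          intro k hk; subst hk; exact this
        exact key _ hk
      · rw [Function.update_of_ne hk]; simp
    have e10 : (one tm.k₁ (List.map outE.symm x) tm.k₁).length ≤
        b * (one tm.k₁ (List.map outE.symm x) tm.k₁).length :=
      Nat.le_mul_of_pos_left _ hb
    have e11 : b * (one tm.k₀ (List.map inE.symm y) tm.k₁).length ≤
        b * y.length := Nat.mul_le_mul_left _ e9
    have e12 : t ≤ n * c + 1 := ht
    rw [e8] at e10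
    simp only at this
    nlinarith [this, e10, e11, e12]
  refine hall.mono ?_
  simp only [Polynomial.eval_add, Polynomial.eval_mul, Polynomial.eval_C, Polynomial.eval_X]
  have h1 : n * c ≤ c * (y.length + t) := by
    rw [mul_comm]; exact Nat.mul_le_mul_left _ (by omega)
  have h2 : x.length ≤ (b + 1) * (y.length + t) + c * (y.length + t) +
      (b + bs + 10) := by
    have : (b + 1) * y.length ≤ (b + 1) * (y.length + t) := Nat.mul_le_mul_left _ (by omega)
    omega
  have h3 : (2 * b + 2) * x.length + 4 * x.length ≤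
      (4 * b + 20) * ((b + 1) * (y.length + t) + c * (y.length + t) +
      (b + bs + 10)) := by
    calc (2 * b + 2) * x.length + 4 * x.length
        = (2 * b + 6) * x.length := by ring
      _ ≤ (4 * b + 20) * x.length := Nat.mul_le_mul_right _ (by omega)
      _ ≤ _ := Nat.mul_le_mul_left _ h2
  have h4 : n * (2 * bs + B + 1) = n * c := rfl
  rw [List.length_reverse]
  have h5 : (b + 4) * y.length + 4 * y.length = (b + 8) * y.length := by ring
  have h6 : (b + 8) * y.length ≤ (b + 8) * (y.length + t) := Nat.mul_le_mul_left _ (by omega)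
  rw [h4]
  omega

/-! ### While loops -/

/-- the body of the while loop -/
def wbody (c : Cmd ℕ) : Cmd ℕ := Cmd.seq (clr 1) (Cmd.seq (ev c) (Cmd.seq split (Cmd.pop 1)))

/-- what remains of the flag -/
def rest (b : Bool) : List Bool := (toT b).enc.reverse.tail

theorem rest_true : rest true = [false, true] := rfl
theorem rest_false : rest false = [] := rfl

theorem while_runs {β : Type} {tb : β → T} {f : β → β} {g : β → Bool} {c : Cmd ℕ}
    {p : Polynomial ℕ} (hc : ∀ a, Runs c (inp (tb a).enc)
      (inp (T.node (toT (g (f a))) (tb (f a))).enc) (p.eval (tb a).size)) (S : ℕ) :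
    ∀ (n : ℕ) (x : β) (l : List Bool), l ≠ [] → l.length ≤ 2 →
      (∀ k < n, g (f^[k + 1] x) = true) → g (f^[n + 1] x) = false →
      (∀ k ≤ n, (tb (f^[k] x)).size ≤ S) →
      Runs (Cmd.loop 1 (wbody c)) (st (tb x).enc l []) (st (tb (f^[n + 1] x)).enc [] [])
        ((p.eval S + 30) * (n + 1) + 1) := by
  have hbody : ∀ (x : β) (l : List Bool), l.length ≤ 2 → (tb x).size ≤ S →
      Runs (wbody c) (st (tb x).enc l []) (st (tb (f x)).enc (rest (g (f x))) [])
        (p.eval S + 25) := by
    intro x l hl hS
    have h1 : Runs (clr 1) (st (tb x).enc l []) (st (tb x).enc [] []) (2 * l.length + 1) :=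
      clr_runs l _ _ (by simp) (by simp)
    have h2 := ev_runs (hc x) []
    have h3 := split_runs (toT (g (f x))) (tb (f x))
    have h4 : Runs (Cmd.pop 1) (st (tb (f x)).enc (toT (g (f x))).enc.reverse [])
        (st (tb (f x)).enc (rest (g (f x))) []) 1 :=
      (Runs.pop _ 1).conv rfl (by simp [rest]) le_rfl
    refine (h1.seq (h2.seq (h3.seq h4))).mono ?_
    have e1 : p.eval (tb x).size ≤ p.eval S := eval_mono p hS
    have e2 : (toT (g (f x))).size ≤ 3 := by cases g (f x) <;> decide
    omega
  intro n
  induction n with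
  | zero =>
    intro x l hl hl' _ h2 h3
    have h4 := hbody x l hl' (h3 0 le_rfl)
    have h5 : g (f x) = false := h2
    rw [h5, rest_false] at h4
    exact (Runs.loopCons (by simpa using hl) h4 (Runs.loopNil (by simp))).mono (by omega)
  | succ n ih =>
    intro x l hl hl' h1 h2 h3
    have h4 := hbody x l hl' (h3 0 (Nat.zero_le _))
    have h5 : g (f x) = true := h1 0 (Nat.succ_pos n)
    rw [h5, rest_true] at h4
    have h6 := ih (f x) [false, true] (by simp) (by simp)
      (fun k hk => h1 (k + 1) (by omega)) h2 (fun k hk => h3 (k + 1) (by omega))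
    refine (Runs.loopCons (by simpa using hl) h4 h6).mono ?_
    nlinarith

end Pool.Agent.J6H27.KS
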