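import Pool.Agent.J6H27.KS.Sim

/-!
# A universal machine exists
-/

namespace Pool.Agent.J6H27.KS

open Pool.Agent.NPC Turing
open Pool.Agent.H660R2.NX (cenc poly_ustep sim Rep Inv ustep_iterate_nil)

/-- the step of the interpreter -/
abbrev us : List T × List (List Bool) → List T × List (List Bool) := Pool.Agent.H660R2.NX.ustep

/-- the initial state of the interpreter -/
def ini (z : List Bool) : List T × List (List Bool) :=
  (unbits (T × List Unit) (unpair z).1).elim ([], [])
    (fun e => ([e.1], (unpair z).2 :: e.2.map (fun _ => [])))

theorem poly_ini : Poly ini := by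
  have h1 : Poly (fun z : List Bool => unbits (T × List Unit) (unpair z).1) :=
    poly_unbits.comp (Poly.fst poly_unpair)
  have h2 : Poly (fun z : List Bool => unpair z) := poly_unpair
  have h3 : Poly (fun p : List Bool × (T × List Unit) => (unpair p.1).2) :=
    Poly.snd (h2.comp (Poly.fst Poly.id))
  unfold ini
  exact Poly.optElim (h := fun z e => (([e.1], (unpair z).2 :: e.2.map (fun _ => [])) :
    List T × List (List Bool))) h1 (NPC.Poly.const _) (by fun_prop)

/-- the state has not halted -/
def act (s : List T × List (List Bool)) : Bool := !(s.1.isEmpty)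

/-- the output of the interpreter -/
def out (s : List T × List (List Bool)) : List Bool := s.2.getD 0 []

/-- The step of the interpreter together with the test. -/
theorem exists_stepCmd : ∃ (c : Cmd ℕ) (p : Polynomial ℕ), ∀ a : List T × List (List Bool),
    Runs c (inp (toT a).enc) (inp (T.node (toT (act (us a))) (toT (us a))).enc)
      (p.eval (toT a).size) := by
  have h : Poly (fun a : List T × List (List Bool) => (act (us a), us a)) := by
    have h1 : Poly us := poly_ustep
    have h2 : Poly (fun a : List T × List (List Bool) => us a) := h1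
    unfold act
    exact Poly.pair (Poly.not (Poly.isEmpty (Poly.fst h2))) h2
  obtain ⟨c, p, h⟩ := h
  exact ⟨c, p, fun a => h a⟩

theorem exists_universal : ∃ U : Mach, Universal U := by
  obtain ⟨c1, p1, h1⟩ : PC (fun x : List Bool => x)
      (bits : List T × List (List Bool) → List Bool) ini :=
    PC.comp (g := ini) (f := fun x => x) poly_ini PC.rawIn
  obtain ⟨c2, p2, h2⟩ := exists_stepCmd
  obtain ⟨c3, p3, h3⟩ : PC (bits : List T × List (List Bool) → List Bool)
      (fun x : List Bool => x) out := by
    refine PC.comp (g := fun x => x) (f := out) R591.rawOut ?_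
    change Poly (fun s : List T × List (List Bool) => s.2.getD 0 [])
    fun_prop
  let prog : Cmd ℕ := Cmd.seq c1 (Cmd.seq (Cmd.seq (Cmd.push 1 false)
    (Cmd.loop 1 (wbody c2))) c3)
  refine ⟨ofCmd prog, 1, fun M => ?_⟩
  obtain ⟨c, q, hc⟩ := exists_cmd M
  let e : T × List Unit := (cenc c, List.replicate c.bd ())
  -- size bound
  let L : Polynomial ℕ := Polynomial.C (sz e) + Polynomial.X + 2 * q
  let Z : Polynomial ℕ := (1 + 2 * q) * (L + 1) + Polynomial.C (c.bd + 1) * (4 * (L + 2 * q) + 2) + 3
  let X : Polynomial ℕ := Polynomial.C (2 * (bits e).length + 1) + Polynomial.X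
  refine ⟨fun y => pairBits (bits e) y, 2 * (bits e).length + 1,
    p1.comp X + (1 + ((p2.comp Z + 30) * (2 * q + 1) + 1)) + p3.comp Z + 1, ?_, ?_⟩
  · intro y
    rw [Pool.Agent.H660R2.NX.length_pairBits]
    omega
  · intro y x t hM
    obtain ⟨t₀, ht₀, hr⟩ := hc y x t hM
    set N := y.length + t with hN
    set z := pairBits (bits e) y with hz
    have hini : ini z = ([cenc c], y :: (List.replicate c.bd ()).map (fun _ => [])) := by
      unfold ini
      rw [hz, unpair_pairBits, unbits_bits]
      rfl
    have hrep : Rep (y :: (List.replicate c.bd ()).map (fun _ => ([] : List Bool)))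
        (inp y : ℕ → List Bool) := by
      intro i
      cases i with
      | zero => simp [inp]
      | succ i =>
        rw [List.getD_cons_succ]
        simp only [inp, List.map_replicate]
        rw [Function.update_of_ne (by omega)]
        rw [List.getD_eq_getElem?_getD, List.getElem?_replicate]
        split_ifs <;> rfl
    obtain ⟨n, s', hn, _, hs', he⟩ := sim hr [] _ (by simp) hrep
    rw [← hini] at he
    -- the first halting time
    have hex : ∃ k, act (us^[k] (ini z)) = false := ⟨n, by rw [he]; rfl⟩
    classical
    let k := Nat.find hex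
    have hk1 : act (us^[k] (ini z)) = false := Nat.find_spec hex
    have hk2 : ∀ j < k, act (us^[j] (ini z)) = true := by
      intro j hj
      have := Nat.find_min hex hj
      simpa using this
    have hkn : k ≤ n := Nat.find_min' hex (by rw [he]; rfl)
    have hk0 : k ≠ 0 := by
      intro h0
      rw [h0, Function.iterate_zero, hini] at hk1
      simp [act] at hk1
    obtain ⟨m, hm⟩ := Nat.exists_eq_succ_of_ne_zero hk0
    have hfix : us^[k] (ini z) = ([], s') := by
      have h5 : (us^[k] (ini z)).1 = [] := by
        simpa [act] using hk1
      obtain ⟨d, hd⟩ := Nat.exists_eq_add_of_le hkn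
      rw [hd, Nat.add_comm, Function.iterate_add_apply] at he
      generalize us^[k] (ini z) = w at he h5
      obtain ⟨r, s⟩ := w
      simp only at h5
      subst h5
      rw [ustep_iterate_nil] at he
      exact he
    have hout : out ([], s') = x := by
      have := hs' 0
      simpa [out, inp] using this
    -- sizes
    have hInv : Inv (sz e) (c.bd + 1) (sz e + y.length) 0 (ini z) := by
      rw [hini]
      refine ⟨by simp, ?_, by simp, ?_⟩
      · intro v hv
        simp only [List.mem_singleton] at hv
        subst hv
        simp only [e, sz_pair]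
        omega
      · intro v hv
        simp only [List.mem_cons, List.mem_map] at hv
        rcases hv with rfl | ⟨_, _, rfl⟩
        · omega
        · simp
    have ht₀' : t₀ ≤ q.eval N := ht₀
    have hsz : ∀ j ≤ k, (toT (us^[j] (ini z))).size ≤ Z.eval N := by
      intro j hj
      have h6 := (hInv.iterate (sz_pos e) j).sz_le
      have h7 : j ≤ 2 * q.eval N := by omega
      have h8 : sz e + y.length ≤ L.eval N := by
        simp only [L, Polynomial.eval_add, Polynomial.eval_C, Polynomial.eval_X,
          Polynomial.eval_mul, Polynomial.eval_ofNat]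
        omega
      have h9 : sz e ≤ L.eval N := by omega
      change sz _ ≤ _
      refine h6.trans ?_
      simp only [Z, Polynomial.eval_add, Polynomial.eval_mul, Polynomial.eval_C,
        Polynomial.eval_one, Polynomial.eval_ofNat]
      gcongr
    -- the run
    have r1 : Runs c1 (inp z) (st (toT (ini z)).enc [] []) (p1.eval (X.eval N)) := by
      have h6 := h1 z
      refine h6.conv rfl ?_ (eval_mono p1 ?_)
      · rw [inp_eq_st]; rfl
      · rw [hz, Pool.Agent.H660R2.NX.length_pairBits]
        simp only [X, Polynomial.eval_add, Polynomial.eval_C, Polynomial.eval_X]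
        omega
    have r2 : Runs (Cmd.push 1 false) (st (toT (ini z)).enc [] [])
        (st (toT (ini z)).enc [false] []) 1 :=
      (Runs.push _ 1 false).conv rfl (by simp) le_rfl
    have r3 := while_runs (tb := (toT : List T × List (List Bool) → T)) (f := us) (g := act)
      h2 (Z.eval N) m (ini z) [false] (by simp) (by simp)
      (fun j hj => hk2 (j + 1) (by omega)) (by rw [← Nat.succ_eq_add_one, ← hm]; exact hk1)
      (fun j hj => hsz j (by omega))
    rw [← Nat.succ_eq_add_one, ← hm, hfix] at r3
    have r4 : Runs c3 (st (toT (([], s') : List T × List (List Bool))).enc [] []) (inp x)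
        (p3.eval (Z.eval N)) := by
      have h6 := h3 ([], s')
      refine h6.conv ?_ ?_ (eval_mono p3 ?_)
      · rw [inp_eq_st]; rfl
      · rw [hout]
      · have := hsz k le_rfl
        rw [hfix] at this
        exact this
    have hall := r1.seq ((r2.seq r3).seq r4)
    have h10 := ofCmd_outputs hall
    obtain ⟨h10⟩ := h10
    refine ⟨outputs_conv rfl rfl ?_ h10⟩
    simp only [Polynomial.eval_add, Polynomial.eval_comp, Polynomial.eval_mul,
      Polynomial.eval_one, Polynomial.eval_ofNat]
    have h11 : (p2.eval (Z.eval N) + 30) * k ≤
        (p2.eval (Z.eval N) + 30) * (2 * q.eval N + 1) :=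
      Nat.mul_le_mul_left _ (by omega)
    omega

end Pool.Agent.J6H27.KS
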